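import Pool.Agent.Y7.LN.Stm2

/-!
# LN2-SUMB: the sum of the main modes
-/

open Set Filter Topology MeasureTheory Metric

set_option autoImplicit false

namespace Pool.Agent.Y429.LN

open Pool.Agent.Y303.EJ (SeqE Num dl Q)

section
variable {η : ℝ} {lm L C ℓ : ℕ → ℝ}

lemma lm_lin (hN : Num η lm L C ℓ) (j : ℕ) : 10 ^ 30 * ((j : ℝ) + 1) ≤ lm j := by
  induction j with
  | zero => simpa using hN.lm1 0
  | succ j ih =>
    have h1 := hN.lmsum j
    have h2 : lm j ≤ ∑ i ∈ Finset.range (j + 1), lm i :=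
      Finset.single_le_sum (f := lm) (fun i _ => by
        have := hN.lm1 i
        linarith) (Finset.mem_range.2 (Nat.lt_succ_self j))
    have h3 := hN.d1 (j + 1)
    have h4 := hN.d0 (j + 1)
    have h6 := hN.lm1 (j + 1)
    have h5 : dl η (j + 1) * lm (j + 1) ≤ 1 * lm (j + 1) :=
      mul_le_mul_of_nonneg_right (by linarith) (by linarith)
    have h7 : (0 : ℝ) ≤ (j : ℝ) := Nat.cast_nonneg j
    push_cast
    linarith

/-- the tail -/
lemma tail_est (hN : Num η lm L C ℓ) (j : ℕ) :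
    Real.exp (-(lm j / 300)) * Q η lm j ≤ (1 / 2) ^ j := by
  have h1 := lm_lin hN j
  have h2 := hN.d1 j
  have h3 := hN.d0 j
  have h4 := hN.lm1 j
  have h5 : dl η j * lm j ≤ 1 / 100 * lm j := mul_le_mul_of_nonneg_right h2 (by linarith)
  have h7 : (0 : ℝ) ≤ (j : ℝ) := Nat.cast_nonneg j
  unfold Q
  rw [← Real.exp_add]
  have h8 : -(lm j / 300) + dl η j * lm j / 10 ^ 6 ≤ -(j : ℝ) := by
    linarith
  refine (Real.exp_le_exp.mpr h8).trans ?_
  have h9 : Real.exp (-(j : ℝ)) = (Real.exp (-1)) ^ j := by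
    rw [← Real.exp_nat_mul]
    congr 1
    ring
  rw [h9]
  refine pow_le_pow_left₀ (Real.exp_pos _).le ?_ j
  rw [Real.exp_neg]
  have h10 := Real.add_one_le_exp (1 : ℝ)
  rw [one_div]
  exact inv_anti₀ (by norm_num) (by linarith)

lemma g_double (hN : Num η lm L C ℓ) (n : ℕ) :
    2 * L (n + 1) ^ (3 / 5 : ℝ) ≤ L (n + 2) ^ (3 / 5 : ℝ) := by
  have h1 := hN.Ls (n + 1)
  have h2 := hN.d1 (n + 2)
  have h3 := hN.L1 (n + 1)
  have h4 := hN.L1 (n + 2)
  have h5 : dl η (n + 2) * L (n + 2) ≤ 1 / 100 * L (n + 2) :=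
    mul_le_mul_of_nonneg_right h2 (by linarith)
  have h6 : 32 * L (n + 1) ≤ L (n + 2) := by
    have h7 : (10 : ℝ) ^ 30 * L (n + 1) ≤ dl η (n + 2) * L (n + 2) := h1
    linarith
  have h7 : (32 * L (n + 1)) ^ (3 / 5 : ℝ) ≤ L (n + 2) ^ (3 / 5 : ℝ) :=
    Real.rpow_le_rpow (by linarith) h6 (by norm_num)
  rw [Real.mul_rpow (by norm_num) (by linarith)] at h7
  have h8 : (32 : ℝ) ^ (3 / 5 : ℝ) = 8 := by
    rw [show (32 : ℝ) = (2 : ℝ) ^ (5 : ℝ) by norm_num, ← Real.rpow_mul (by norm_num)]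
    norm_num
  rw [h8] at h7
  have h9 : 0 ≤ L (n + 1) ^ (3 / 5 : ℝ) := Real.rpow_nonneg (by linarith) _
  linarith

lemma g_sum (hN : Num η lm L C ℓ) (K : ℕ) :
    ∑ m ∈ Finset.range (K + 1), L (m + 1) ^ (3 / 5 : ℝ) ≤ 2 * L (K + 1) ^ (3 / 5 : ℝ) := by
  induction K with
  | zero =>
    have h3 := hN.L1 1
    have h9 : 0 ≤ L (0 + 1) ^ (3 / 5 : ℝ) := Real.rpow_nonneg (by
      have := hN.L1 (0 + 1)
      linarith) _
    rw [Finset.sum_range_succ, Finset.sum_range_zero, zero_add]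
    linarith
  | succ K ih =>
    rw [Finset.sum_range_succ]
    have h1 := g_double hN K
    have h2 : K + 1 + 1 = K + 2 := rfl
    rw [h2]
    linarith

end

theorem t_SUMB : Pool.Agent.Y7.LN.S_SUMB := by
  intro η lm L C ℓ B X w _ hN hX hw
  refine ⟨4 * X, by positivity, ?_⟩
  intro k x hx1 hx2
  have hf0 : ∀ m, 0 ≤ |x m| * w m := fun m => mul_nonneg (abs_nonneg _) (hw m).1
  have htail : ∀ m, |x (m + (k + 3))| * w (m + (k + 3)) ≤ 2 * X * (1 / 2) ^ m := by
    intro m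
    obtain ⟨j, hj⟩ : ∃ j, j = m + (k + 3) - 1 := ⟨_, rfl⟩
    have hjm : m + (k + 3) = j + 1 := by omega
    have h1 := hx2 (m + (k + 3)) (by omega)
    rw [← hj] at h1
    have h2 := (hw (m + (k + 3))).2
    have h3 : L (m + (k + 3) + 1) ^ (3 / 5 : ℝ) ≤ Q η lm j := by
      have h4 := hN.L1 (m + (k + 3) + 1)
      have h5 : L (m + (k + 3) + 1) ^ (3 / 5 : ℝ) ≤ L (m + (k + 3) + 1) ^ (1 : ℝ) :=
        Real.rpow_le_rpow_of_exponent_le h4 (by norm_num)
      rw [Real.rpow_one] at h5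
      exact h5.trans (hN.QL j _ (by omega))
    have h4 : w (m + (k + 3)) ≤ X * Q η lm j := h2.trans (mul_le_mul_of_nonneg_left h3 hX)
    have h5 := tail_est hN j
    have hQ : 0 ≤ Q η lm j := by
      have := hN.Q1 j
      have h6 : (0 : ℝ) ≤ 10 ^ 30 := by positivity
      linarith
    calc |x (m + (k + 3))| * w (m + (k + 3))
        ≤ Real.exp (-(lm j / 300)) * (X * Q η lm j) :=
          mul_le_mul h1 h4 (hw _).1 (Real.exp_pos _).le
      _ = X * (Real.exp (-(lm j / 300)) * Q η lm j) := by ring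
      _ ≤ X * (1 / 2) ^ j := mul_le_mul_of_nonneg_left h5 hX
      _ ≤ X * (1 / 2) ^ m := by
          refine mul_le_mul_of_nonneg_left ?_ hX
          exact pow_le_pow_of_le_one (by norm_num) (by norm_num) (by omega)
      _ ≤ 2 * X * (1 / 2) ^ m := by
          refine mul_le_mul_of_nonneg_right (by linarith) (by positivity)
  have hgeo : Summable fun m : ℕ => 2 * X * (1 / 2 : ℝ) ^ m :=
    (summable_geometric_two).mul_left (2 * X)
  have hst : Summable fun m => |x (m + (k + 3))| * w (m + (k + 3)) :=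
    Summable.of_nonneg_of_le (fun m => hf0 _) htail hgeo
  have hs : Summable fun m => |x m| * w m :=
    (summable_nat_add_iff (f := fun m => |x m| * w m) (k + 3)).mp hst
  refine ⟨hs, ?_⟩
  rw [← hs.sum_add_tsum_nat_add (k + 3)]
  have h1 : ∑ m ∈ Finset.range (k + 3), |x m| * w m ≤ X * (2 * L (k + 3) ^ (3 / 5 : ℝ)) := by
    calc ∑ m ∈ Finset.range (k + 3), |x m| * w m
        ≤ ∑ m ∈ Finset.range (k + 3), X * L (m + 1) ^ (3 / 5 : ℝ) := by
          refine Finset.sum_le_sum fun m _ => ?_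
          calc |x m| * w m ≤ 1 * w m := mul_le_mul_of_nonneg_right (hx1 m) (hw m).1
            _ = w m := one_mul _
            _ ≤ _ := (hw m).2
      _ = X * ∑ m ∈ Finset.range (k + 2 + 1), L (m + 1) ^ (3 / 5 : ℝ) := by
          rw [Finset.mul_sum]
      _ ≤ X * (2 * L (k + 2 + 1) ^ (3 / 5 : ℝ)) := mul_le_mul_of_nonneg_left (g_sum hN (k + 2)) hX
      _ = _ := rfl
  have h2 : ∑' m, |x (m + (k + 3))| * w (m + (k + 3)) ≤ 2 * X * 2 := by
    refine (hst.tsum_le_tsum htail hgeo).trans (le_of_eq ?_)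
    rw [tsum_mul_left, tsum_geometric_two]
  have h3 : 0 ≤ X * L (k + 3) ^ (3 / 5 : ℝ) := mul_nonneg hX (Real.rpow_nonneg (by
    have := hN.L1 (k + 3)
    linarith) _)
  linarith

end Pool.Agent.Y429.LN
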